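import Pool.Agent.L7h71.GB.All
import Pool.Agent.L7h71.GC.Asm
import Pool.Agent.L7h42.GC.Fin
import Pool.Agent.L7h42.GC.Meb
import Pool.Agent.L7h44.GC.Iso
import Pool.Agent.L7h6.GC.Mec
import Pool.Agent.L7h60.GC.Dex
import Pool.Agent.L7h73.GC.Exr
import Pool.Agent.L7h75.GC.Gen
import Pool.Agent.L7h76.GC.Ycc
import Pool.Agent.L7h71.GD.Ult
import Pool.Agent.L7h96.GC.Fnc
import Pool.Agent.L7h96.GC.Gdc

set_option autoImplicit false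

/-!
# Project GC: all parts together
-/

namespace Pool.Agent.L7h71.GC

theorem gct : S_GCT :=
  s_GCT Pool.Agent.L7h71.GB.gbt L7h96.GC.s_GDC (L7h96.GC.s_FNC L7h96.GC.s_GDC)
    (L7h76.GC.s_YCC L7h71.GD.Ult.s_ULT L7h96.GC.s_GDC) L7h73.GC.s_EXR
    (L7h44.GC.s_ISO L7h75.GC.s_GEN) (L7h6.GC.s_MEC L7h42.GC.s_MEB) L7h60.GC.s_DEX
    (L7h42.GC.s_FIN L7h75.GC.s_GEN (L7h6.GC.s_MEC L7h42.GC.s_MEB))

end Pool.Agent.L7h71.GC
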