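import Pool.Agent.L7h71.GC.Stm

set_option autoImplicit false

/-!
# Project GC: base lemmas
-/

namespace Pool.Agent.L7h71.GC

open Set Function FirstOrder FirstOrder.Language

variable {L : FirstOrder.Language.{0, 0}}

theorem term_congr {β : Type} (t : L.Term (ℕ ⊕ β)) : ∃ m : ℕ, ∀ (S : L.Structure ℕ)
    (v v' : ℕ → ℕ) (xs : β → ℕ), (∀ i ≤ m, v i = v' i) →
    @Term.realize L ℕ S _ (Sum.elim v xs) t = @Term.realize L ℕ S _ (Sum.elim v' xs) t := by
  induction t with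
  | var x =>
    rcases x with i | j
    · exact ⟨i, fun S v v' xs h => h i le_rfl⟩
    · exact ⟨0, fun S v v' xs h => rfl⟩
  | @func n F ts ih =>
    choose m hm using ih
    refine ⟨Finset.univ.sup m, fun S v v' xs h => ?_⟩
    show @Structure.funMap L ℕ S n F _ = @Structure.funMap L ℕ S n F _
    congr 1
    funext j
    exact hm j S v v' xs fun i hi => h i (hi.trans (Finset.le_sup (Finset.mem_univ j)))

/-- The value of a term depends on finitely many variables. -/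
theorem tr_congr (t : L.Term ℕ) : ∃ m : ℕ, ∀ (S : L.Structure ℕ) (v v' : ℕ → ℕ),
    (∀ i ≤ m, v i = v' i) → tr S v t = tr S v' t := by
  induction t with
  | var i => exact ⟨i, fun S v v' h => h i le_rfl⟩
  | @func n F ts ih =>
    choose m hm using ih
    refine ⟨Finset.univ.sup m, fun S v v' h => ?_⟩
    show @Structure.funMap L ℕ S n F _ = @Structure.funMap L ℕ S n F _
    congr 1
    funext j
    exact hm j S v v' fun i hi => h i (hi.trans (Finset.le_sup (Finset.mem_univ j)))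

theorem bf_congr {n : ℕ} (φ : L.BoundedFormula ℕ n) : ∃ m : ℕ, ∀ (S : L.Structure ℕ)
    (v v' : ℕ → ℕ) (xs : Fin n → ℕ), (∀ i ≤ m, v i = v' i) →
    (@BoundedFormula.Realize L ℕ S ℕ n φ v xs ↔ @BoundedFormula.Realize L ℕ S ℕ n φ v' xs) := by
  induction φ with
  | falsum => exact ⟨0, fun S v v' xs h => Iff.rfl⟩
  | equal t₁ t₂ =>
    obtain ⟨m₁, h₁⟩ := term_congr t₁
    obtain ⟨m₂, h₂⟩ := term_congr t₂
    refine ⟨max m₁ m₂, fun S v v' xs h => ?_⟩
    show @Term.realize L ℕ S _ (Sum.elim v xs) t₁ = @Term.realize L ℕ S _ (Sum.elim v xs) t₂ ↔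
      @Term.realize L ℕ S _ (Sum.elim v' xs) t₁ = @Term.realize L ℕ S _ (Sum.elim v' xs) t₂
    rw [h₁ S v v' xs fun i hi => h i (hi.trans (le_max_left _ _)),
      h₂ S v v' xs fun i hi => h i (hi.trans (le_max_right _ _))]
  | @rel n k R ts =>
    choose m hm using fun j => term_congr (ts j)
    refine ⟨Finset.univ.sup m, fun S v v' xs h => ?_⟩
    show @Structure.RelMap L ℕ S _ R (fun j => @Term.realize L ℕ S _ (Sum.elim v xs) (ts j)) ↔
      @Structure.RelMap L ℕ S _ R (fun j => @Term.realize L ℕ S _ (Sum.elim v' xs) (ts j))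
    have h2 : (fun j => @Term.realize L ℕ S _ (Sum.elim v xs) (ts j)) =
        fun j => @Term.realize L ℕ S _ (Sum.elim v' xs) (ts j) := funext fun j =>
      hm j S v v' xs fun i hi => h i (hi.trans (Finset.le_sup (Finset.mem_univ j)))
    rw [h2]
  | imp φ₁ φ₂ ih₁ ih₂ =>
    obtain ⟨m₁, h₁⟩ := ih₁
    obtain ⟨m₂, h₂⟩ := ih₂
    refine ⟨max m₁ m₂, fun S v v' xs h => ?_⟩
    exact imp_congr (h₁ S v v' xs fun i hi => h i (hi.trans (le_max_left _ _)))
      (h₂ S v v' xs fun i hi => h i (hi.trans (le_max_right _ _)))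
  | all φ ih =>
    obtain ⟨m, hm⟩ := ih
    exact ⟨m, fun S v v' xs h => forall_congr' fun a => hm S v v' _ h⟩

/-- The truth value of a formula depends on finitely many variables. -/
theorem fr_congr (φ : L.Formula ℕ) : ∃ m : ℕ, ∀ (S : L.Structure ℕ) (v v' : ℕ → ℕ),
    (∀ i ≤ m, v i = v' i) → (fr S v φ ↔ fr S v' φ) := by
  obtain ⟨m, hm⟩ := bf_congr φ
  exact ⟨m, fun S v v' h => hm S v v' _ h⟩

theorem tr_relabel (S : L.Structure ℕ) (v g : ℕ → ℕ) (t : L.Term ℕ) :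
    tr S v (t.relabel g) = tr S (v ∘ g) t := by
  let _ := S
  exact Term.realize_relabel

theorem fr_relabel (S : L.Structure ℕ) (v g : ℕ → ℕ) (φ : L.Formula ℕ) :
    fr S v (φ.relabel g) ↔ fr S (v ∘ g) φ := by
  let _ := S
  exact Formula.realize_relabel

theorem qf_relabel {φ : L.Formula ℕ} (h : φ.IsQF) (g : ℕ → ℕ) :
    (Formula.relabel g φ).IsQF := by
  unfold Formula.relabel
  exact BoundedFormula.IsQF.relabel h _

theorem tr_subst (S : L.Structure ℕ) (v : ℕ → ℕ) (t : L.Term ℕ) (s : ℕ → L.Term ℕ) :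
    tr S v (t.subst s) = tr S (fun i => tr S v (s i)) t := by
  let _ := S
  exact Term.realize_subst

theorem qf_equal (t t' : L.Term ℕ) : (t.equal t').IsQF :=
  (BoundedFormula.IsAtomic.equal _ _).isQF

theorem fr_equal (S : L.Structure ℕ) (v : ℕ → ℕ) (t t' : L.Term ℕ) :
    fr S v (t.equal t') ↔ tr S v t = tr S v t' := by
  let _ := S
  exact Formula.realize_equal

theorem qf_not {φ : L.Formula ℕ} (h : φ.IsQF) : (Formula.not φ).IsQF :=
  h.not

theorem fr_not (S : L.Structure ℕ) (v : ℕ → ℕ) (φ : L.Formula ℕ) :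
    fr S v (Formula.not φ) ↔ ¬ fr S v φ := by
  let _ := S
  exact Formula.realize_not

theorem qf_bak (t t' : L.Term ℕ) : (bak t t').IsQF := qf_equal _ _

theorem qf_fwd (t : L.Term ℕ) : (fwd t).IsQF := qf_equal _ _

theorem fr_bak (S : L.Structure ℕ) (v : ℕ → ℕ) (t t' : L.Term ℕ) :
    fr S v (bak t t') ↔ tr S (fun _ => tr S v t) t' = v 0 := by
  unfold bak
  rw [fr_equal, tr_subst]
  exact Iff.rfl

theorem fr_fwd (S : L.Structure ℕ) (v : ℕ → ℕ) (t : L.Term ℕ) :
    fr S v (fwd t) ↔ tr S (fun _ => v 0) t = v 1 := by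
  unfold fwd
  rw [fr_equal, tr_subst]
  exact Iff.rfl

theorem Gen.trans {S : L.Structure ℕ} {v w : ℕ → ℕ} {p : ℕ} (h : Gen S v p)
    (h' : ∀ i, Gen S w (v i)) : Gen S w p := by
  obtain ⟨t, rfl⟩ := h
  choose s hs using h'
  exact ⟨t.subst s, by rw [tr_subst, funext hs]⟩

theorem Gen.self (S : L.Structure ℕ) (v : ℕ → ℕ) (i : ℕ) : Gen S v (v i) := ⟨Term.var i, rfl⟩

theorem Gen.of_G1 {S : L.Structure ℕ} {v : ℕ → ℕ} {i p : ℕ} (h : G1 S (v i) p) : Gen S v p :=
  Gen.trans h fun _ => Gen.self S v i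

theorem G1.refl (S : L.Structure ℕ) (y : ℕ) : G1 S y y := ⟨Term.var 0, rfl⟩

theorem G1.trans {S : L.Structure ℕ} {x y z : ℕ} (h : G1 S x y) (h' : G1 S y z) : G1 S x z :=
  Gen.trans h' fun _ => h

/-- The generators of a maximal 1-generated substructure are top points. -/
theorem TopP.of {S : L.Structure ℕ} {y w : ℕ} (h : TopP S y) (h1 : G1 S y w) (h2 : G1 S w y) :
    TopP S w := fun z hz => h2.trans (h z (hz.trans h2))

/-- The top points generate `S`. -/
theorem Pres.gen {S : L.Structure ℕ} {ρ : ℕ → ℕ} (h : Pres S ρ) (hd : Dis S) (p : ℕ) :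
    Gen S ρ p := by
  obtain ⟨n, hn⟩ := hd.bdd
  obtain ⟨y, hy, hy', -⟩ := hn p
  obtain ⟨i, rfl⟩ := (h.2 y).1 hy'
  exact Gen.of_G1 hy

/-- The block of a top point has at most `n` elements. -/
theorem Dis.block {S : L.Structure ℕ} (hd : Dis S) : ∃ n : ℕ, ∀ x, TopP S x →
    {z | G1 S x z ∧ G1 S z x}.encard ≤ n := by
  obtain ⟨n, hn⟩ := hd.bdd
  refine ⟨n, fun x hx => ?_⟩
  obtain ⟨y, hy, -, hy'⟩ := hn x
  refine le_trans (encard_le_encard ?_) hy'
  rintro z ⟨h1, h2⟩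
  exact ⟨hy.trans h1, h2.trans (hx y hy)⟩

end Pool.Agent.L7h71.GC
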