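import Pool.Agent.L7h71.GB.Fog
import Pool.Agent.H565R2.FO2.USec

set_option autoImplicit false

/-!
# Project GC: universal theories with functions

GOAL. Let `T` consist of universal sentences and finitely many `∃∀` sentences, in any countable
language, such that each model `S` on `ℕ` of `T` which is not finitely generated satisfies: the union of two
substructures is a substructure, and for some `n` each point lies in a maximal 1-generated substructure which has at
most `n` generators. Then Vaught's conjecture (perfect-set form) holds for `T`. (Examples: arbitrarily many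
constants and unary functions from one sort to another sort, for instance sets of infinite sequences.)

PLAN. A point `y` is a top point if the substructure generated by `y` is maximal among the 1-generated ones.
The code of `S` is the structure on `ℕ` (the top points, enumerated by `ρ`) whose `m`-th function gives the
quantifier-free type of `m + 1` top points. The theorem GBT (`Pool.Agent.L7h71.GB.S_GBT`) is applied to the class of
all codes; the good sets are the sets which contain with a top point `y` all other generators of the substructure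
generated by `y`.

Every part is a `def S_XXX : Prop`; a proof is a theorem `s_XXX (hypotheses) : S_XXX` in the file
`Pool/Agent/<folder>/GC/Xxx.lean`, namespace of your own (for instance `Pool.Agent.L7h23.GC`), which
imports this file. If a statement is false or inconvenient tell me at once.
-/

namespace Pool.Agent.L7h71.GC

open Set Function MeasureTheory FirstOrder FirstOrder.Language
open Pool.Agent.H533R2.VO (RS RIso Dich)
open Pool.Agent.L7h66.UA (XS XIso XYo XDich)
open Pool.Agent.L7h71.UN (IsEU)
open Pool.Agent.L7h71.GB (pt FamG Gd Fine GYo Emb)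
open Pool.Agent.W889.FO (VaughtF)
open Pool.Agent.W889.FO.St0 (RF LF gr W D)
open Pool.Agent.R617.VT (ar dc Md)

variable {L : FirstOrder.Language.{0, 0}}

/-- the value of a term -/
def tr (S : L.Structure ℕ) (v : ℕ → ℕ) (t : L.Term ℕ) : ℕ := @Term.realize L ℕ S ℕ v t

/-- the truth value of a formula -/
def fr (S : L.Structure ℕ) (v : ℕ → ℕ) (φ : L.Formula ℕ) : Prop := @Formula.Realize L ℕ S ℕ φ v

/-- `p` is in the substructure generated by the points `v i`. -/
def Gen (S : L.Structure ℕ) (v : ℕ → ℕ) (p : ℕ) : Prop := ∃ t : L.Term ℕ, tr S v t = p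

/-- `p` is in the substructure generated by `y`. -/
def G1 (S : L.Structure ℕ) (y p : ℕ) : Prop := Gen S (fun _ => y) p

/-- The substructure generated by `y` is maximal among the 1-generated ones. -/
def TopP (S : L.Structure ℕ) (y : ℕ) : Prop := ∀ z, G1 S z y → G1 S y z

/-- The conditions for `S`: unions of substructures are substructures, and each point lies in a maximal
1-generated substructure with at most `n` generators. -/
structure Dis (S : L.Structure ℕ) : Prop where
  union : ∀ (v : ℕ → ℕ) p, Gen S v p → ∃ i, G1 S (v i) p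
  bdd : ∃ n : ℕ, ∀ x, ∃ y, G1 S y x ∧ TopP S y ∧ {z | G1 S y z ∧ G1 S z y}.encard ≤ n

/-- `S` is finitely generated. -/
def FGs (S : L.Structure ℕ) : Prop := ∃ l : List ℕ, l ≠ [] ∧ ∀ p, Gen S (pt l) p

/-- `E` enumerates the quantifier-free formulas. -/
def Enum (E : ℕ → L.Formula ℕ) : Prop := (∀ k, (E k).IsQF) ∧ ∀ φ : L.Formula ℕ, φ.IsQF → ∃ k, E k = φ

/-- the number of a formula -/
noncomputable def ix (E : ℕ → L.Formula ℕ) (φ : L.Formula ℕ) : ℕ := sInf {k | E k = φ}

theorem ix_spec {E : ℕ → L.Formula ℕ} (hE : Enum E) {φ : L.Formula ℕ} (h : φ.IsQF) :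
    E (ix E φ) = φ := Nat.sInf_mem (s := {k | E k = φ}) (hE.2 φ h)

/-- The assignment with the entries of the tuple `x`, the last one repeated. -/
def tu {m : ℕ} {V : Type} (x : Fin (m + 1) → V) (s : ℕ) : V :=
  x ⟨min s m, Nat.lt_succ_of_le (min_le_right s m)⟩

/-- Structures with values in the Cantor space. -/
abbrev CS (V : Type) : Type := XS (fun m => m + 1) (fun _ => ℕ → Bool) V

open Classical in
/-- the code: the quantifier-free types of the tuples of points `ρ i` -/
noncomputable def cod (E : ℕ → L.Formula ℕ) (S : L.Structure ℕ) (ρ : ℕ → ℕ) : CS ℕ :=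
  fun _ x k => decide (fr S (fun s => ρ (tu x s)) (E k))

/-- `ρ` is an enumeration without repetitions of the top points. -/
def Pres (S : L.Structure ℕ) (ρ : ℕ → ℕ) : Prop := Injective ρ ∧ ∀ y, TopP S y ↔ ∃ i, ρ i = y

/-- the formula `t' (t (x)) = x` -/
def bak (t t' : L.Term ℕ) : L.Formula ℕ := (t'.subst fun _ => t).equal (Term.var 0)

/-- the formula `t (x) = y` -/
def fwd (t : L.Term ℕ) : L.Formula ℕ := (t.subst fun _ => Term.var 0).equal (Term.var 1)

/-- The good finite structures: if `t' (t (y)) = y` then `t (y)` is one of the points. -/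
def GG (E : ℕ → L.Formula ℕ) : FamG (fun m => m + 1) (fun _ => ℕ → Bool) := fun n =>
  {s | ∀ (y : Fin n) (t t' : L.Term ℕ), s 0 (fun _ => y) (ix E (bak t t')) = true →
    ∃ z : Fin n, s 1 ![y, z] (ix E (fwd t)) = true}

/-! ### the parts -/

/-- GEN (80 lines, no hypotheses). If the generating families `v`, `v'` have the same quantifier-free type then
there is an isomorphism which maps `v i` to `v' i`.

Proof. Map `tr S v t` to `tr S' v' t`; well defined and injective because `t.equal t'` is quantifier-free; functions: `Term.func F ts`;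
relations: `R.formula ts` (or `Relations.boundedFormula`) is quantifier-free. -/
def S_GEN : Prop :=
  ∀ (L : FirstOrder.Language.{0, 0}) (S S' : L.Structure ℕ) (v v' : ℕ → ℕ),
    (∀ p, Gen S v p) → (∀ p, Gen S' v' p) → (∀ φ : L.Formula ℕ, φ.IsQF → (fr S v φ ↔ fr S' v' φ)) →
    ∃ f : @FirstOrder.Language.Equiv L ℕ ℕ S S',
      ∀ i, @FirstOrder.Language.Equiv.toEquiv L ℕ ℕ S S' f (v i) = v' i

/-- ULT (200 lines, pure model theory, no hypotheses). Limits.

Proof. `F` consists of the witnesses in `S` of the existential quantifiers of the finitely many sentences of `T` which are not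
universal. Let `S*` be the ultrapower of `S` for a nonprincipal ultrafilter on `ℕ` (`(Filter.hyperfilter ℕ : Filter ℕ).Product`,
`FirstOrder.Language.Ultraproduct`), `x* i` the class of `t ↦ z t i`, `A` the substructure of `S*` generated by the `x* i`. By Łoś (`Ultraproduct.realize_formula_cast`,
`Ultraproduct.sentence_realize`) a formula true at `z t` for all large `t` is true at `x*` in `S*`, and if it is quantifier-free also in
`A` (`BoundedFormula.IsQF.realize_embedding`). `A` is infinite (the `x* i` are pairwise different) and countable, so isomorphic to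
a structure `S₁` on `ℕ`. Universal sentences: `S* ⊨ T`, `BoundedFormula.IsUniversal.realize_embedding` or so. A sentence `∃ ū ∀ v̄ θ` with
witnesses `ū ∈ F` in `S`: the constant classes `u_j` satisfy `∀ v̄ θ` in `S*`, and they belong to `A` (value of the term `t_p`), so they
satisfy `∀ v̄ θ` in `A`. Compare `Pool.Agent.L7h71.UN.eu_theory` (file `UN/Fo.lean`) for the treatment of the finitely many sentences. -/
def S_ULT : Prop :=
  ∀ (L : FirstOrder.Language.{0, 0}), Countable L.Symbols → ∀ (T : L.Theory), (∀ φ ∈ T, IsEU φ) →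
    {φ ∈ T | ¬ φ.IsUniversal}.Finite → ∀ S : L.Structure ℕ, @Theory.Model L ℕ S T →
    ∃ F : Finset ℕ, ∀ z : ℕ → ℕ → ℕ,
      (∀ p ∈ F, ∃ s : L.Term ℕ, ∀ t, tr S (z t) s = p) →
      (∀ i j, i ≠ j → ∃ t₀, ∀ t ≥ t₀, z t i ≠ z t j) →
      ∃ (S₁ : L.Structure ℕ) (x : ℕ → ℕ), @Theory.Model L ℕ S₁ T ∧ (∀ p, Gen S₁ x p) ∧
        ∀ φ : L.Formula ℕ, φ.IsQF → (∃ t₀, ∀ t ≥ t₀, fr S (z t) φ) → fr S₁ x φ

/-- GDC (120 lines, no hypotheses). Good sets of codes, and the family `GG` is Borel (each `𝓖 n` is a countable Boolean
combination of the clopen sets of the `s` with `s 0 (fun _ => y) k = true`, `s 1 ![y, z] k = true`). For the first claim: the points `w` with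
`G1 S (ρ y) w`, `G1 S w (ρ y)` are the `w = t (ρ y)` with `t' (t (ρ y)) = ρ y`; enumerate `b` by the `u` in `Gd` (`u` is onto `b`). -/
def S_GDC : Prop :=
  ∀ (L : FirstOrder.Language.{0, 0}), Countable L.Symbols → ∀ (E : ℕ → L.Formula ℕ), Enum E →
    (∀ n, MeasurableSet (GG E n)) ∧
    ∀ (S : L.Structure ℕ) (ρ : ℕ → ℕ) (b : Finset ℕ), Gd (GG E) (cod E S ρ) b ↔
      ∀ y ∈ b, ∀ w, G1 S (ρ y) w → G1 S w (ρ y) → ∃ z ∈ b, ρ z = w

/-- FNC (80 lines), hypothesis GDC. Codes are fine.

Proof. Unions are clear; intersections: `ρ` is injective. Let `n` be as in `Dis.bdd`. The block `{w | G1 S (ρ i) w ∧ G1 S w (ρ i)}` of the top point `ρ i` consists of top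
points and it has at most `n` elements (take `y` as in `bdd` for `x = ρ i`; as `ρ i` is top `y` is in its block); `b` is its preimage by `ρ`. -/
def S_FNC : Prop :=
  ∀ (L : FirstOrder.Language.{0, 0}), Countable L.Symbols → ∀ (E : ℕ → L.Formula ℕ), Enum E →
    ∀ (S : L.Structure ℕ) (ρ : ℕ → ℕ), Dis S → Pres S ρ → Fine (GG E) (cod E S ρ)

/-- YCC (250 lines), hypotheses ULT, GDC. The closure condition.

Proof. Let `F₀` be as in ULT for `S`. As the top points generate `S` (`Dis`), there is a finite set `F` such that each `p ∈ F₀` is the value of a term at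
`ρ`, whose variables are in `F`, `0 ∈ F` (let `F` be an initial segment `{0, ..., f}`). Let `N₁` be as in the hypothesis; for each `t` let `X' t`, `e t` be as in `GYo` for `X = {0, ..., t + f}`; `z t i = ρ (e t i)`.
`z t i = ρ i` for `i ∈ F`, so the first hypothesis of ULT holds (`Term.realize` depends only on the variables of the term), the second one because `e t` is
injective on `X' t`. For tuples `x` with entries `≤ t` is `N₁ m x = cod E S ρ m (e t ∘ x)`, so the truth value of `E k` at `fun s => z t (tu x s)` in `S` is `N₁ m x k`.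
ULT gives `S₁`, `x₁`. (a) `cod E S₁ x₁ = N₁`: apply the last claim to `E k` or its negation, with the variables renamed by `tu x` (`Formula.relabel`). (b) TRANSFER: a
quantifier-free formula `φ` is true in `S₁` at `x₁` iff it is true in `S` at `z t` for all large `t` iff it is true for one large `t` (larger than its variables), because the truth value is
given by `N₁`. (c) `x₁` is injective by TRANSFER. (d) `x₁ i` is a top point of `S₁`: let `G1 S₁ w (x₁ i)`, `w = s (x₁)` for a term `s`, `x₁ i = r (w)`. For a large `t` the point `s (z t)` of `S` generates the top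
point `z t i`, so `s (z t) = q (z t i)` for a term `q`; TRANSFER: `w = q (x₁ i)`. (e) Each top point `w` of `S₁` is an `x₁ j`: `w = s (x₁)`; for a large `t` by `Dis.union` (applied to the assignment
which agrees with `z t` on the variables of `s` and is constant otherwise) `s (z t) = q (z t i)` for a variable `i` of `s`; TRANSFER: `w = q (x₁ i)`, so `G1 S₁ (x₁ i) w`, hence `G1 S₁ w (x₁ i)`, `x₁ i = q' (w)`; TRANSFER: `z t i = q' (q (z t i))` for all
large `t`; `X' t` is good in `N₁` and contains `i`, so there is `j ∈ X' t` with `q (x₁ i) = x₁ j` (GDC for the code `N₁ = cod E S₁ x₁`).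
(f) `S₁` is not finitely generated: otherwise (as in (e)) there are finitely many `i` such that each point is in one of the substructures generated by the `x₁ i`; one `i` works for
infinitely many `x₁ j`, and as they are top points they are in the block of `x₁ i`; by TRANSFER for a large `t` the block of `z t i` in `S` has more than `n` elements (`z t j` for `n + 1` numbers `j`), `n` as in `Dis.bdd`, a
contradiction (see the proof of FNC). -/
def S_YCC : Prop :=
  ∀ (L : FirstOrder.Language.{0, 0}), Countable L.Symbols → ∀ (E : ℕ → L.Formula ℕ), Enum E →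
    ∀ (T : L.Theory), (∀ φ ∈ T, IsEU φ) → {φ ∈ T | ¬ φ.IsUniversal}.Finite →
    ∀ (S : L.Structure ℕ) (ρ : ℕ → ℕ), @Theory.Model L ℕ S T → Dis S → Pres S ρ →
    ∃ F : Finset ℕ, ∀ N₁ : CS ℕ, GYo (GG E) F (cod E S ρ) N₁ →
      ∃ (S₁ : L.Structure ℕ) (ρ₁ : ℕ → ℕ), @Theory.Model L ℕ S₁ T ∧ ¬ FGs S₁ ∧ Pres S₁ ρ₁ ∧
        cod E S₁ ρ₁ = N₁

/-- EXR (60 lines, no hypotheses). The set of top points is infinite (otherwise they generate `S` by `bdd`; it is nonempty). -/
def S_EXR : Prop :=
  ∀ (L : FirstOrder.Language.{0, 0}) (S : L.Structure ℕ), Dis S → ¬ FGs S → ∃ ρ, Pres S ρ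

/-- ISO (100 lines), hypothesis GEN. The code and the isomorphism type.

Proof. First claim: an isomorphism preserves the values of terms, `G1`, top points and all formulas. Second claim: by `Dis.bdd` the top points generate
both structures; apply GEN; a quantifier-free formula `φ` has finitely many variables, all less than some `m`; the `m`-th function of the code at
`(0, ..., m)` gives its truth value. -/
def S_ISO : Prop :=
  ∀ (L : FirstOrder.Language.{0, 0}) (E : ℕ → L.Formula ℕ), Enum E →
    ∀ (S S' : L.Structure ℕ) (ρ ρ' : ℕ → ℕ), Pres S ρ → Pres S' ρ' →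
      (Nonempty (@FirstOrder.Language.Equiv L ℕ ℕ S S') → XIso (cod E S ρ) (cod E S' ρ')) ∧
      (Dis S → Dis S' → cod E S ρ = cod E S' ρ' → Nonempty (@FirstOrder.Language.Equiv L ℕ ℕ S S'))

/-- MEB (120 lines, no hypotheses). Measurability, base.

Proof. Induction on terms (`gr` is given by one coordinate of `y`, see `Pool.Agent.W889.FO.St0.fun_iff`), then on quantifier-free formulas. (Compare
`Pool.Agent.W889.FO.St0.fd_term`, `trans` and `Pool.Agent.R617.VT.md_meas`, which may give it at once.) -/
def S_MEB : Prop :=
  ∀ (L : FirstOrder.Language.{0, 0}), Countable L.Symbols →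
    ∀ (e : (Σ n, (LF L).Relations n) → ℕ) (he : Injective e) (φ : L.Formula ℕ), φ.IsQF →
    ∀ v : ℕ → ℕ, MeasurableSet {y : RS (ar e) | W (dc he y) ∧ fr (D (dc he y)) v φ}

open Classical in
/-- the code as a function of the coded structure and `ρ` -/
noncomputable def cd (E : ℕ → L.Formula ℕ) {e : (Σ n, (LF L).Relations n) → ℕ} (he : Injective e)
    (z : RS (ar e) × (ℕ → ℕ)) : CS ℕ := fun _ x k =>
  decide (W (dc he z.1) ∧ fr (D (dc he z.1)) (fun s => z.2 (tu x s)) (E k))

/-- MEC (120 lines), hypothesis MEB. Measurability.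

Proof. (1) `G1`: `tr S v t = p` is `fr S v' φ` for the formula `t = x_i` if `i` is a variable with `v' i = p` (for instance relabel the variables of `t` by `2 i`); so for fixed points
`Gen`, `G1` are measurable (the terms are countable), and so are `TopP`, `FGs` for fixed points. (2) For `Pres` and `cd` divide according to finitely many values of `ρ`. -/
def S_MEC : Prop :=
  ∀ (L : FirstOrder.Language.{0, 0}), Countable L.Symbols →
    ∀ (E : ℕ → L.Formula ℕ), Enum E → ∀ (e : (Σ n, (LF L).Relations n) → ℕ) (he : Injective e),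
    (∀ (v : ℕ → ℕ) (p : ℕ), MeasurableSet {y : RS (ar e) | W (dc he y) ∧ Gen (D (dc he y)) v p}) ∧
    MeasurableSet {y : RS (ar e) | W (dc he y) ∧ FGs (D (dc he y))} ∧
    MeasurableSet {z : RS (ar e) × (ℕ → ℕ) | W (dc he z.1) ∧ Pres (D (dc he z.1)) z.2} ∧
    Measurable (cd E he)

/-- FIN (150 lines), hypotheses GEN, MEB, MEC. Finitely generated models of any theory.

Proof. Let `B` be the set (measurable, so standard Borel) and for a nonempty list `l` let `J l y` be `(true, fun k => fr (D (dc he y)) (pt l) (E k))` if `pt l` generates `D (dc he y)`, and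
`(false, fun _ => false)` otherwise. An isomorphism `σ` maps `J l y` to `J (l.map σ) y'`. If the union of the ranges of the `J l` is uncountable then
`Pool.Agent.H565R2.FO2.perfect_of_uncountable` (see its use at the end of `Pool/Agent/L7h71/GB/Asm.lean`) gives the perfect family. If it is countable then choose for each value `(true, d)` one `y`; by GEN each
structure is isomorphic to one of them. The isomorphisms: `Pool.Agent.R617.VT.siso_of_iso`, `iso_of_siso`,
`Pool.Agent.W889.FO.St0.iso_down`, `iso_up`. (`E` exists: the formulas are countable, `Pool.Agent.L7h71.GC.exists_enum` below.) -/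
def S_FIN : Prop :=
  ∀ (L : FirstOrder.Language.{0, 0}), Countable L.Symbols →
    ∀ (e : (Σ n, (LF L).Relations n) → ℕ) (he : Injective e) (T : L.Theory) (T' : (LF L).Theory),
    (∀ S : (LF L).Structure ℕ, @Theory.Model (LF L) ℕ S T' ↔
      W S ∧ @Theory.Model L ℕ (D S) T) →
    XDich (a := ar e) (K := fun _ => Bool) {y | y ∈ Md he T' ∧ FGs (D (dc he y))}

/-- DEX (50 lines, no hypotheses). Each structure is decoded from a code.

Proof. Let `S₀` be the structure for `LF L` whose relations `RF.fn F` are the graphs and `y = Pool.Agent.R617.VT.cd he S₀`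
(`nrm_cd`, `cd_e`). Compare `Pool.Agent.W889.FO.St0.ex`; equality of structures by `FirstOrder.Language.Structure.ext` and `fun_iff`. -/
def S_DEX : Prop :=
  ∀ (L : FirstOrder.Language.{0, 0}) (e : (Σ n, (LF L).Relations n) → ℕ) (he : Injective e)
    (S : L.Structure ℕ), ∃ y : RS (ar e), Pool.Agent.R617.VT.Nrm y ∧ W (dc he y) ∧ D (dc he y) = S

/-- GCT (assembly, helper71). -/
def S_GCT : Prop :=
  ∀ (L : FirstOrder.Language.{0, 0}), Countable L.Symbols → ∀ (T : L.Theory), (∀ φ ∈ T, IsEU φ) →
    {φ ∈ T | ¬ φ.IsUniversal}.Finite →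
    (∀ S : L.Structure ℕ, @Theory.Model L ℕ S T → ¬ FGs S → Dis S) → VaughtF L T

theorem exists_enum (hc : Countable L.Symbols) : ∃ E : ℕ → L.Formula ℕ, Enum E := by
  classical
  have h1 : Countable (L.Formula ℕ) := by
    have h2 : Countable (Σ n, L.BoundedFormula ℕ n) := inferInstance
    exact (Injective.countable (f := fun φ : L.Formula ℕ => (⟨0, φ⟩ : Σ n, L.BoundedFormula ℕ n))
      fun φ ψ h => by simpa using h)
  have h3 : Countable {φ : L.Formula ℕ // φ.IsQF} := inferInstance
  have h4 : Nonempty {φ : L.Formula ℕ // φ.IsQF} := ⟨⟨⊥, BoundedFormula.IsQF.falsum⟩⟩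
  obtain ⟨f, hf⟩ := exists_surjective_nat {φ : L.Formula ℕ // φ.IsQF}
  refine ⟨fun k => (f k).1, fun k => (f k).2, fun φ h => ?_⟩
  obtain ⟨k, hk⟩ := hf ⟨φ, h⟩
  exact ⟨k, congrArg Subtype.val hk⟩

end Pool.Agent.L7h71.GC
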